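import Pool.Agent.L0h5.TU.Stm

/-!
# Project TU: the boxes
-/

set_option autoImplicit false
set_option linter.all false

namespace Pool.Agent.L0h88.TU

open Finset Polynomial Pool.Agent.W262.RK Pool.Agent.L0h5.TH Pool.Agent.L0h5.MR
  Pool.Agent.L0h5.TQ Filter
open Pool.Agent.L0h5.TF hiding oo QF
open Pool.Agent.L0h5.TT (LL)
open Pool.Agent.L0h5.TU
open Pool.Agent.W307.RT (Box mem_Box)

/-- the change of the variables -/
def gm (t : ℤ × ℤ) : ℤ × ℤ := (t.1, t.2 - 2 * t.1)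

lemma gm_inj : Function.Injective gm := by
  intro s t hst
  unfold gm at hst
  simp only [Prod.mk.injEq] at hst
  refine Prod.ext hst.1 ?_
  have h4 := hst.2
  rw [hst.1] at h4
  linarith

section

variable {J : Type} [Fintype J] [DecidableEq J] {P : J → ℤ[X]} {a : Fin 3 → ℤ}
  {q : J → Fin 3} {m : J → ℕ} {n : ℕ} {sp : J → Bool}

lemma hv_ne (hF : Fam2 P a q m n sp) {M N : ℤ → ℤ → ℤ}
    (hM : ∀ u v : ℤ, hv (Fk P a (fun _ => false) q m 0) (u, v - 2 * u) = -(M u v))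
    (hN : ∀ u v : ℤ, hv (Fk P a (fun _ => false) q m 1) (u, v - 2 * u) = -(N u v))
    {T : ℕ} {t : ℤ × ℤ} (ht : t ∈ BoxM M N T) (j : J) : hv (P j) (gm t) ≠ 0 := by
  unfold BoxM at ht
  rw [mem_filter] at ht
  obtain ⟨_, h8, h9, h10, h11⟩ := ht
  intro hj
  have h12 : hv (Fk P a (fun _ => false) q m (q j)) (t.1, t.2 - 2 * t.1) = 0 := by
    rw [hv_Fk]
    apply mul_eq_zero_of_right
    apply prod_eq_zero (mem_univ j)
    have hj' : hv (P j) (t.1, t.2 - 2 * t.1) = 0 := hj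
    rw [hj']
    apply zero_pow
    unfold mu
    have := hF.mul j
    simp
    omega
  have h13 : ∀ k : Fin 3, k = 0 ∨ k = 1 ∨ k = 2 := by decide
  rcases h13 (q j) with h14 | h14 | h14
  · rw [h14, hM] at h12
    exact h9 (by linarith)
  · rw [h14, hN] at h12
    exact h10 (by linarith)
  · have h15 := hv_sub hF.rel (hF.deg 0) (hF.deg 1) (hF.deg 2) (t.1, t.2 - 2 * t.1)
    rw [h14] at h12
    rw [hM, hN, h12] at h15
    exact h11 (by linarith)

lemma gm_mem {M N : ℤ → ℤ → ℤ} {T : ℕ} {t : ℤ × ℤ} (ht : t ∈ BoxM M N T) :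
    ((-((3 * T : ℕ) : ℤ) ≤ (gm t).1 ∧ (gm t).1 ≤ ((3 * T : ℕ) : ℤ)) ∧
      -((3 * T : ℕ) : ℤ) ≤ (gm t).2 ∧ (gm t).2 ≤ ((3 * T : ℕ) : ℤ)) ∧
      IsCoprime (gm t).1 (gm t).2 := by
  unfold BoxM at ht
  rw [mem_filter, mem_Box] at ht
  obtain ⟨⟨h6, h7⟩, h8, h9, h10, h11⟩ := ht
  unfold gm
  simp only
  push_cast
  refine ⟨⟨⟨by omega, by omega⟩, by omega, by omega⟩, ?_⟩
  have h12 := IsCoprime.add_mul_left_right h8 (-2)
  have e : t.2 + t.1 * -2 = t.2 - 2 * t.1 := by ring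
  rwa [e] at h12

lemma gm_TH (hF : Fam2 P a q m n sp) {M N : ℤ → ℤ → ℤ}
    (hM : ∀ u v : ℤ, hv (Fk P a (fun _ => false) q m 0) (u, v - 2 * u) = -(M u v))
    (hN : ∀ u v : ℤ, hv (Fk P a (fun _ => false) q m 1) (u, v - 2 * u) = -(N u v))
    {T : ℕ} {t : ℤ × ℤ} (ht : t ∈ BoxM M N T) : gm t ∈ TH P (3 * T) := by
  have h1 := gm_mem ht
  rw [mem_TH]
  refine ⟨h1.1, h1.2, ?_⟩
  rw [hv_FF, prod_ne_zero_iff]
  intro j _
  exact hv_ne hF hM hN ht j

open Classical in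
/-- the pairs that are not typical -/
noncomputable def Nt (P : J → ℤ[X]) (M N : ℤ → ℤ → ℤ) (T : ℕ) (j : J) : Finset (ℤ × ℤ) :=
  (BoxM M N T).filter (fun t => ¬ Typ1 (P j) (3 * T) (gm t))

open Classical in
lemma Nt_card (hF : Fam2 P a q m n sp) {M N : ℤ → ℤ → ℤ}
    (hM : ∀ u v : ℤ, hv (Fk P a (fun _ => false) q m 0) (u, v - 2 * u) = -(M u v))
    (hN : ∀ u v : ℤ, hv (Fk P a (fun _ => false) q m 1) (u, v - 2 * u) = -(N u v))
    (T : ℕ) (j : J) : (Nt P M N T j).card ≤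
      ((Icc (-((3 * T : ℕ) : ℤ)) ((3 * T : ℕ) : ℤ) ×ˢ
        Icc (-((3 * T : ℕ) : ℤ)) ((3 * T : ℕ) : ℤ)).filter (fun t : ℤ × ℤ =>
      Int.gcd t.1 t.2 = 1 ∧ hv (P j) t ≠ 0 ∧ ¬ Typ1 (P j) (3 * T) t)).card := by
  apply card_le_card_of_injOn gm
  · intro t ht
    unfold Nt at ht
    rw [mem_coe, mem_filter] at ht
    have h1 := gm_mem ht.1
    rw [mem_coe, mem_filter, mem_product, mem_Icc, mem_Icc]
    exact ⟨h1.1, Int.isCoprime_iff_gcd_eq_one.mp h1.2, hv_ne hF hM hN ht.1 j, ht.2⟩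
  · exact gm_inj.injOn

end

/-- **K** -/
theorem boxU (hMn : S2_MAIN) (hTy : S2_TYP) : S2_BOX := by
  classical
  intro J _ _ _ P a q m n sp hF M N hM hN
  refine ⟨fun T => (BoxM M N T).filter (fun t => ∀ j, Typ1 (P j) (3 * T) (gm t)),
    fun T => filter_subset _ _, ?_, fun k => ?_⟩
  · choose C X0 hX0 hC using fun j => hTy (P j) (hF.fm.irr j)
    have t3 : Tendsto (fun T : ℕ => 3 * T) atTop atTop :=
      tendsto_id.const_mul_atTop' (by norm_num : 0 < 3)
    have tX : Tendsto (fun T : ℕ => ((3 * T : ℕ) : ℝ)) atTop atTop :=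
      tendsto_natCast_atTop_atTop.comp t3
    have tL : Tendsto (fun T : ℕ => LL (3 * T)) atTop atTop :=
      Real.tendsto_log_atTop.comp (Real.tendsto_log_atTop.comp tX)
    have tR : Tendsto (fun T : ℕ => (LL (3 * T)) ^ (1 / 2 : ℝ)) atTop atTop :=
      (tendsto_rpow_atTop (by norm_num : (0 : ℝ) < 1 / 2)).comp tL
    have t4 : Tendsto (fun T : ℕ => (∑ j, |C j| * 9) / (LL (3 * T)) ^ (1 / 2 : ℝ)) atTop
        (nhds 0) := tR.const_div_atTop _
    refine squeeze_zero' (Eventually.of_forall fun T => by positivity) ?_ t4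
    have hev : ∀ᶠ T : ℕ in atTop, ∀ j, X0 j ≤ 3 * T :=
      eventually_all.2 fun j => t3.eventually_ge_atTop (X0 j)
    filter_upwards [hev, tR.eventually_gt_atTop 0, eventually_ge_atTop 1] with T hT hR hT1
    have hTr : (0 : ℝ) < T := by exact_mod_cast hT1
    rw [div_le_iff₀ (by positivity)]
    have hsub : BoxM M N T \ (BoxM M N T).filter (fun t => ∀ j, Typ1 (P j) (3 * T) (gm t)) ⊆
        univ.biUnion (fun j => Nt P M N T j) := by
      intro t ht
      rw [Finset.mem_sdiff, mem_filter, not_and, not_forall] at ht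
      obtain ⟨j, hj⟩ := ht.2 ht.1
      rw [mem_biUnion]
      refine ⟨j, mem_univ j, ?_⟩
      unfold Nt
      rw [mem_filter]
      exact ⟨ht.1, hj⟩
    have h1 := (card_le_card hsub).trans card_biUnion_le
    have h2 : ((BoxM M N T \ (BoxM M N T).filter
        (fun t => ∀ j, Typ1 (P j) (3 * T) (gm t))).card : ℝ) ≤
        ∑ j, ((Nt P M N T j).card : ℝ) := by exact_mod_cast h1
    refine h2.trans ?_
    have h3 : ∀ j ∈ (univ : Finset J), ((Nt P M N T j).card : ℝ) ≤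
        |C j| * 9 * (T : ℝ) ^ 2 / (LL (3 * T)) ^ (1 / 2 : ℝ) := by
      intro j _
      refine ((Nat.cast_le (α := ℝ)).mpr (Nt_card hF hM hN T j)).trans ((hC j (3 * T) (hT j)).trans ?_)
      apply div_le_div_of_nonneg_right _ hR.le
      refine (mul_le_mul_of_nonneg_right (le_abs_self _) (by positivity)).trans (le_of_eq ?_)
      push_cast
      ring
    refine (sum_le_sum h3).trans (le_of_eq ?_)
    rw [← sum_div, ← sum_mul, div_mul_eq_mul_div]
  · obtain ⟨C, hC⟩ := hMn J P a q m n sp hF k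
    refine ⟨|C| * 9, by positivity, fun T hT => ?_⟩
    have h3 := hC (3 * T) (by omega)
    set S := (BoxM M N T).filter (fun t => ∀ j, Typ1 (P j) (3 * T) (gm t)) with hS
    have h4 : ∑ t ∈ S, ((2 : ℝ) ^ rkM M N t) ^ k =
        ∑ t ∈ S.image gm, ((2 : ℝ) ^ Module.finrank ℤ
          (EAB (hv (Fk P a (fun _ => false) q m 0) t)
          (hv (Fk P a (fun _ => false) q m 1) t)).toAffine.Point) ^ k := by
      rw [sum_image fun s _ t _ hst => gm_inj hst]
      refine sum_congr rfl fun t _ => ?_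
      unfold rkM gm
      rw [hM, hN]
    rw [h4]
    have h5 : S.image gm ⊆ (TH P (3 * T)).filter (fun t => ∀ j, Typ1 (P j) (3 * T) t) := by
      intro s hs
      obtain ⟨t, ht, rfl⟩ := mem_image.1 hs
      rw [hS, mem_filter] at ht
      rw [mem_filter]
      exact ⟨gm_TH hF hM hN ht.1, ht.2⟩
    refine (sum_le_sum_of_subset_of_nonneg h5 fun t _ _ => by positivity).trans (h3.trans ?_)
    push_cast
    have h6 := le_abs_self C
    have h7 : (0 : ℝ) ≤ (3 * (T : ℝ)) ^ 2 := by positivity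
    refine (mul_le_mul_of_nonneg_right h6 h7).trans (le_of_eq ?_)
    ring

end Pool.Agent.L0h88.TU
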