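import Pool.Agent.L0h5.TU.Stm

/-!
# Project TU: from the boxes to the curves with prescribed torsion
-/

set_option autoImplicit false
set_option linter.all false

namespace Pool.Agent.L0h88.TU

open Finset Pool.Agent.W262.RK Filter
open Pool.Agent.L0h5.TU Pool.Agent.L0h5.T8
open Pool.Agent.W307.RT

lemma boxM_card (M N : ℤ → ℤ → ℤ) : ∃ Cb : ℝ, ∀ T : ℕ, 1 ≤ T →
    ((BoxM M N T).card : ℝ) ≤ Cb * (T : ℝ) ^ 2 := by
  refine ⟨9, fun T hT => ?_⟩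
  have h1 : (BoxM M N T).card ≤ (Box T).card := card_filter_le _ _
  have h2 : (Box T).card = (2 * T + 1) * (2 * T + 1) := by
    unfold Box
    rw [card_product, Int.card_Icc]
    have : (((T : ℤ) + 1 - -(T : ℤ)).toNat) = 2 * T + 1 := by omega
    rw [this]
  have h3 : (BoxM M N T).card ≤ 9 * T ^ 2 := by
    rw [h2] at h1
    nlinarith
  exact_mod_cast h3

lemma Cc_mono (m : ℕ) {H H' : ℕ} (h : H ≤ H') : Cc m H ⊆ Cc m H' := by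
  classical
  intro c hc
  unfold Cc at hc ⊢
  rw [mem_filter, mem_product, mem_Icc, mem_Icc] at hc ⊢
  obtain ⟨⟨⟨a1, a2⟩, a3, a4⟩, a5, a6, a7, a8, a9⟩ := hc
  have h' : (H : ℤ) ≤ H' := by exact_mod_cast h
  exact ⟨⟨⟨by omega, by omega⟩, by omega, by omega⟩, a5, a6.trans h', a7.trans h', a8, a9⟩

lemma Cv_mono (m : ℕ) {H H' : ℕ} (h : H ≤ H') : Cv m H ⊆ Cv m H' := by
  classical
  intro c hc
  unfold Cv at hc ⊢
  rw [mem_filter, mem_product, mem_Icc, mem_Icc] at hc ⊢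
  obtain ⟨⟨⟨a1, a2⟩, a3, a4⟩, a5, a6, a7, a8, a9⟩ := hc
  have h' : (H : ℤ) ≤ H' := by exact_mod_cast h
  exact ⟨⟨⟨by omega, by omega⟩, by omega, by omega⟩, a5, a6.trans h', a7.trans h', a8, a9⟩

lemma mem_BoxM {M N : ℤ → ℤ → ℤ} {C H k : ℕ} (hk : 1 ≤ k) {t : ℤ × ℤ} (a1 : IsCoprime t.1 t.2)
    (a2 : M t.1 t.2 ≠ 0) (a3 : N t.1 t.2 ≠ 0) (a4 : M t.1 t.2 ≠ N t.1 t.2)
    (a5 : t.1.natAbs ^ k ≤ C * H) (a6 : t.2.natAbs ^ k ≤ C * H) (T : ℕ)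
    (hT : C * H < (T + 1) ^ k) : t ∈ BoxM M N T := by
  unfold BoxM
  rw [mem_filter, mem_Box]
  refine ⟨⟨?_, ?_⟩, a1, a2, a3, a4⟩
  · have := (Nat.pow_lt_pow_iff_left (by omega : k ≠ 0)).1 (lt_of_le_of_lt a5 hT)
    omega
  · have := (Nat.pow_lt_pow_iff_left (by omega : k ≠ 0)).1 (lt_of_le_of_lt a6 hT)
    omega

/-- the curves with a point of order `m` -/
theorem mom_c {m k : ℕ} {M N : ℤ → ℤ → ℤ} (hk : 1 ≤ k) (hP : PARc m k M N) (hL : LOWc m k)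
    (hbox : BXT (BoxM M N) 2 (rkM M N)) (hA : S2_ASM) : MOM (Cc m) rkS := by
  refine hA (Cc m) (BoxM M N) k 2 rkS (rkM M N) hk (by norm_num) (fun H H' h => Cc_mono m h)
    (boxM_card M N) ?_ hL hbox
  obtain ⟨C, F, hF⟩ := hP
  refine ⟨C, F, fun H => ⟨(hF H).1, fun c hc => ?_⟩⟩
  obtain ⟨a1, a2, a3, a4, a5, a6, a7⟩ := (hF H).2 c hc
  exact ⟨fun T hT => mem_BoxM hk a1 a2 a3 a4 a5 a6 T hT, a7⟩

/-- the curves with a subgroup `Z/2 x Z/m` -/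
theorem mom_v {m k : ℕ} {M N : ℤ → ℤ → ℤ} (hk : 1 ≤ k) (hP : PAR m k M N) (hL : LOW m k)
    (hbox : BXT (BoxM M N) 2 (rkM M N)) (hA : S2_ASM) : MOM (Cv m) rkS := by
  refine hA (Cv m) (BoxM M N) k 2 rkS (rkM M N) hk (by norm_num) (fun H H' h => Cv_mono m h)
    (boxM_card M N) ?_ hL hbox
  obtain ⟨C, F, hF⟩ := hP
  refine ⟨C, F, fun H => ⟨(hF H).1, fun c hc => ?_⟩⟩
  obtain ⟨a1, a2, a3, a4, a5, a6, a7⟩ := (hF H).2 c hc
  exact ⟨fun T hT => mem_BoxM hk a1 a2 a3 a4 a5 a6 T hT, le_of_eq a7⟩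

end Pool.Agent.L0h88.TU
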