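import Pool.Agent.L0h88.TU.Mom
import Pool.Agent.L0h5.TE.Z12

/-!
# Project TU: the family of the curves with a point of order 12
-/

set_option autoImplicit false
set_option linter.all false

namespace Pool.Agent.L0h88.TU

open Finset Polynomial Pool.Agent.L0h5.TH
open Pool.Agent.L0h5.TF hiding oo QF
open Pool.Agent.L0h5.TU Pool.Agent.L0h5.T8
open Pool.Agent.L0h5.TE (pol)
open Pool.Agent.L0h5.TE.S12

lemma crit12 : CritA qq (fun j => evG mm j && !(ss j)) := by
  intro a _
  revert a
  decide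

lemma fam12 : Fam2 (fun j => pol (dd j)) aa qq mm 4 ss where
  fm := fm8
  rel := rel8
  deg := deg8
  mul := by decide
  spl := sp8_iff
  crt := crit12

/-- **M4** -/
theorem f12 (hK : S2_BOX) (hL : S2_ASM) : S2_F12 :=
  mom_c (by norm_num) Pool.Agent.L0h98.T12.par12c Pool.Agent.L0h98.T12.low12c
    (hK (Fin 7) _ _ _ _ 4 _ fam12 M12 N12 hv80 hv81) hL

end Pool.Agent.L0h88.TU
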