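import Pool.Agent.L0h88.TU.Mom
import Pool.Agent.L0h5.TE.Z8

/-!
# Project TU: the family of the curves with a point of order 8
-/

set_option autoImplicit false
set_option linter.all false

namespace Pool.Agent.L0h88.TU

open Finset Polynomial Pool.Agent.L0h5.TH
open Pool.Agent.L0h5.TF hiding oo QF
open Pool.Agent.L0h5.TU Pool.Agent.L0h5.T8
open Pool.Agent.L0h5.TE

lemma critc8 : CritA q8 (fun j => evG m8 j && !(sp8 j)) := by
  intro a _
  revert a
  decide

lemma famc8 : Fam2 (fun j => pol (d8 j)) a8 q8 m8 2 sp8 where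
  fm := fm8
  rel := rel8
  deg := deg8
  mul := by decide
  spl := sp8_iff
  crt := critc8

/-- **M3** -/
theorem f8 (hK : S2_BOX) (hL : S2_ASM) : S2_F8 :=
  mom_c (by norm_num) Pool.Agent.L0h98.T8.par8c Pool.Agent.L0h98.T8.low8c
    (hK (Fin 5) _ _ _ _ 2 _ famc8 M8 N8 hv80 hv81) hL

end Pool.Agent.L0h88.TU
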